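import Pool.Agent.Helper75.PX.Stmts

/-! Row M4: generators of the two by two matrices over a quaternion algebra. -/

set_option autoImplicit false

universe u

namespace Pool.Agent.Helper75.PX

theorem M4_am {K Q : Type*} [Field K] [Ring Q] [Algebra K Q] (c : K) :
    algebraMap K (Matrix (Fin 2) (Fin 2) Q) c = !![c • (1 : Q), 0; 0, c • (1 : Q)] := by
  ext a b
  fin_cases a <;> fin_cases b <;>
    simp [Matrix.algebraMap_matrix_apply, Algebra.algebraMap_eq_smul_one]

theorem M4_one {Q : Type*} [Ring Q] :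
    (1 : Matrix (Fin 2) (Fin 2) Q) = !![1, 0; 0, 1] := by
  ext a b
  fin_cases a <;> fin_cases b <;> simp

theorem M4_smul {K Q : Type*} [Field K] [Ring Q] [Algebra K Q] (c : K) (a b d e : Q) :
    c • (!![a, b; d, e] : Matrix (Fin 2) (Fin 2) Q) = !![c • a, c • b; c • d, c • e] := by
  ext a b
  fin_cases a <;> fin_cases b <;> simp

theorem M4_add {Q : Type*} [Ring Q] (a b d e a' b' d' e' : Q) :
    (!![a, b; d, e] : Matrix (Fin 2) (Fin 2) Q) + !![a', b'; d', e'] =
      !![a + a', b + b'; d + d', e + e'] := by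
  ext a b
  fin_cases a <;> fin_cases b <;> simp

theorem M4_neg {Q : Type*} [Ring Q] (a b d e : Q) :
    -(!![a, b; d, e] : Matrix (Fin 2) (Fin 2) Q) = !![-a, -b; -d, -e] := by
  ext a b
  fin_cases a <;> fin_cases b <;> simp

theorem M4_ext {Q : Type*} {a b d e a' b' d' e' : Q} (h1 : a = a') (h2 : b = b') (h3 : d = d')
    (h4 : e = e') : (!![a, b; d, e] : Matrix (Fin 2) (Fin 2) Q) = !![a', b'; d', e'] := by
  rw [h1, h2, h3, h4]

theorem st_M4 : ST_M4.{u} := by
  intro K Q _ _ _ h2 h3 i j x y hi hj hij hx hy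
  obtain ⟨t, ht0, htx⟩ : ∃ t : K, t ≠ 0 ∧ 1 - t ^ 2 * x ≠ 0 := by
    by_cases h : x = 1
    · refine ⟨2, h2, ?_⟩
      subst h
      have h4 : (1 : K) - 2 ^ 2 * 1 = -3 := by norm_num
      rw [h4]
      exact neg_ne_zero.mpr h3
    · refine ⟨1, one_ne_zero, ?_⟩
      intro h'
      apply h
      linear_combination -h'
  rw [Algebra.algebraMap_eq_smul_one] at hi hj
  have hji : j * i = -(i * j) := by rw [hij, neg_neg]
  obtain ⟨P, hP⟩ : ∃ P : Q, P = 1 + t • i := ⟨_, rfl⟩
  obtain ⟨M, hM⟩ : ∃ M : Q, M = 1 - t • i := ⟨_, rfl⟩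
  have hPP : P * P = (1 + t ^ 2 * x) • (1 : Q) + (2 * t) • i := by
    rw [hP]
    simp only [mul_add, add_mul, smul_mul_assoc, mul_smul_comm, one_mul, mul_one, hi]
    module
  have hPM : P * M = (1 - t ^ 2 * x) • (1 : Q) := by
    rw [hP, hM]
    simp only [mul_sub, add_mul, smul_mul_assoc, mul_smul_comm, one_mul, mul_one, hi]
    module
  have hMP : M * P = (1 - t ^ 2 * x) • (1 : Q) := by
    rw [hP, hM]
    simp only [mul_add, sub_mul, smul_mul_assoc, mul_smul_comm, one_mul, mul_one, hi]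
    module
  have hjP : j * P = M * j := by
    rw [hP, hM]
    simp only [mul_add, sub_mul, smul_mul_assoc, mul_smul_comm, one_mul, mul_one, hji]
    module
  have hPi : P * i = i * P := by
    rw [hP]
    simp only [mul_add, add_mul, smul_mul_assoc, mul_smul_comm, one_mul, mul_one]
  obtain ⟨N, hN⟩ : ∃ N : K, N = -3 * (1 - t ^ 2 * x) := ⟨_, rfl⟩
  have hN0 : N ≠ 0 := by rw [hN]; exact mul_ne_zero (neg_ne_zero.mpr h3) htx
  have h4 : (4 : K) ≠ 0 := by
    have : (4 : K) = 2 * 2 := by norm_num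
    rw [this]; exact mul_ne_zero h2 h2
  have h16 : (16 : K) ≠ 0 := by
    have : (16 : K) = 4 * 4 := by norm_num
    rw [this]; exact mul_ne_zero h4 h4
  -- the product with `u`
  have hU : uE (!![(4 * y) • (1 : Q), 0; 0, -((4 * y) • (1 : Q))])
      (!![(2 * t) • i, 0; 0, (2 * t) • i])
      ![5 * (1 + t ^ 2 * x) / N, -(1 + t ^ 2 * x) / (y * N), 5 / N, -1 / (y * N)] =
      !![(1 / N) • (P * P), 0; 0, (9 / N) • (P * P)] := by
    unfold uE
    simp only [Matrix.cons_val_zero, Matrix.cons_val_one, Matrix.cons_val]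
    rw [M4_one, Matrix.mul_fin_two, M4_smul, M4_smul, M4_smul, M4_smul, M4_add, M4_add, M4_add]
    refine M4_ext ?_ ?_ ?_ ?_
    · rw [hPP]
      simp only [smul_mul_assoc, mul_smul_comm, one_mul, mul_one, mul_zero, zero_mul, add_zero,
        zero_add, smul_zero, neg_mul, smul_smul, smul_neg, smul_add]
      have e1 : 5 * (1 + t ^ 2 * x) / N + -(1 + t ^ 2 * x) / (y * N) * (4 * y) =
          1 / N * (1 + t ^ 2 * x) := by field_simp; ring
      have e2 : 5 / N * (2 * t) + -1 / (y * N) * (4 * y * (2 * t)) = 1 / N * (2 * t) := by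
        field_simp; ring
      rw [← e1, ← e2]
      module
    · simp
    · simp
    · rw [hPP]
      simp only [smul_mul_assoc, mul_smul_comm, one_mul, mul_one, mul_zero, zero_mul, add_zero,
        zero_add, smul_zero, neg_mul, smul_smul, smul_neg, smul_add]
      have e1 : 5 * (1 + t ^ 2 * x) / N - -(1 + t ^ 2 * x) / (y * N) * (4 * y) =
          9 / N * (1 + t ^ 2 * x) := by field_simp; ring
      have e2 : 5 / N * (2 * t) - -1 / (y * N) * (4 * y * (2 * t)) = 9 / N * (2 * t) := by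
        field_simp; ring
      rw [← e1, ← e2]
      module
  refine ⟨!![(4 * y) • (1 : Q), 0; 0, -((4 * y) • (1 : Q))], !![(2 * t) • i, 0; 0, (2 * t) • i],
    !![0, P; P, 0], !![(3 : K) • j, 0; 0, -j], 16 * y ^ 2, 4 * t ^ 2 * x, 1 + t ^ 2 * x, 5 * y,
    ![5 * (1 + t ^ 2 * x) / N, -(1 + t ^ 2 * x) / (y * N), 5 / N, -1 / (y * N)], ?_⟩
  refine
    { haa := ?_
      hbb := ?_
      hab := ?_
      hza := ?_
      hzb := ?_
      hwa := ?_
      hwb := ?_
      hzz := ?_
      hww := ?_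
      hzw := ?_
      a0 := ?_
      b0 := ?_
      uz := ?_
      uw := ?_ }
  · rw [M4_am, Matrix.mul_fin_two]
    refine M4_ext ?_ ?_ ?_ ?_
    · simp only [smul_mul_assoc, mul_smul_comm, one_mul, mul_zero, add_zero, smul_smul]
      congr 1; ring
    · simp
    · simp
    · rw [mul_zero, zero_add, neg_mul_neg, smul_mul_assoc, mul_smul_comm, one_mul, smul_smul]
      congr 1; ring
  · rw [M4_am, Matrix.mul_fin_two]
    refine M4_ext ?_ ?_ ?_ ?_
    · simp only [smul_mul_assoc, mul_smul_comm, hi, mul_zero, add_zero, smul_smul]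
      congr 1; ring
    · simp
    · simp
    · simp only [smul_mul_assoc, mul_smul_comm, hi, mul_zero, zero_add, smul_smul]
      congr 1; ring
  · rw [Matrix.mul_fin_two, Matrix.mul_fin_two]
    refine M4_ext ?_ ?_ ?_ ?_
    · simp [smul_smul, mul_comm]
    · simp
    · simp
    · simp [smul_smul, mul_comm]
  · rw [Matrix.mul_fin_two, Matrix.mul_fin_two, M4_neg]
    refine M4_ext ?_ ?_ ?_ ?_ <;> simp
  · rw [Matrix.mul_fin_two, Matrix.mul_fin_two]
    refine M4_ext ?_ ?_ ?_ ?_ <;> simp [hPi]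
  · rw [Matrix.mul_fin_two, Matrix.mul_fin_two]
    refine M4_ext ?_ ?_ ?_ ?_ <;> simp [smul_smul, mul_comm]
  · rw [Matrix.mul_fin_two, Matrix.mul_fin_two, M4_neg]
    refine M4_ext ?_ ?_ ?_ ?_
    · simp only [smul_mul_assoc, mul_smul_comm, hji, mul_zero, add_zero]
      module
    · simp
    · simp
    · simp only [smul_mul_assoc, mul_smul_comm, neg_mul, mul_neg, hji, mul_zero, zero_add]
      module
  · rw [M4_am, Matrix.mul_fin_two, M4_add]
    refine M4_ext ?_ ?_ ?_ ?_ <;> simp [hPP]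
  · rw [M4_am, Matrix.mul_fin_two, M4_add]
    refine M4_ext ?_ ?_ ?_ ?_
    · simp only [smul_mul_assoc, mul_smul_comm, hj, mul_zero, add_zero]
      module
    · simp
    · simp
    · simp only [neg_mul, mul_neg, neg_neg, hj, mul_zero, zero_add]
      module
  · rw [hU, Matrix.mul_fin_two, Matrix.mul_fin_two, Matrix.mul_fin_two]
    have key : ∀ c : K, c • (P * P) * (j * P) = (c * (1 - t ^ 2 * x)) • (P * j) := by
      intro c
      rw [hjP, smul_mul_assoc, ← mul_assoc, mul_assoc P P M, hPM, mul_smul_comm, mul_one,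
        smul_mul_assoc, smul_smul]
    refine M4_ext ?_ ?_ ?_ ?_
    · simp
    · simp only [zero_mul, mul_zero, zero_add, add_zero, mul_neg, smul_mul_assoc, mul_smul_comm]
      have k1 := key (1 / N)
      rw [smul_mul_assoc] at k1
      rw [k1, smul_smul]
      have e1 : 3 * (1 / N * (1 - t ^ 2 * x)) = -1 := by
        rw [hN]; field_simp
      rw [e1]
      module
    · simp only [zero_mul, mul_zero, zero_add, add_zero, mul_neg, neg_mul, smul_mul_assoc,
        mul_smul_comm]
      have k1 := key (9 / N)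
      rw [smul_mul_assoc] at k1
      rw [k1]
      have e1 : 9 / N * (1 - t ^ 2 * x) = -3 := by
        rw [hN]; field_simp; norm_num
      rw [e1]
      module
    · simp
  · exact mul_ne_zero h16 (pow_ne_zero 2 hy)
  · exact mul_ne_zero (mul_ne_zero h4 (pow_ne_zero 2 ht0)) hx
  · refine ⟨⟨!![0, P; P, 0], !![0, (1 / (1 - t ^ 2 * x)) • M; (1 / (1 - t ^ 2 * x)) • M, 0],
      ?_, ?_⟩, rfl⟩
    · rw [M4_one, Matrix.mul_fin_two]
      have e1 : 1 / (1 - t ^ 2 * x) * (1 - t ^ 2 * x) = 1 := by field_simp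
      refine M4_ext ?_ ?_ ?_ ?_
      · rw [zero_mul, zero_add, mul_smul_comm, hPM, smul_smul, e1, one_smul]
      · simp
      · simp
      · rw [mul_zero, add_zero, mul_smul_comm, hPM, smul_smul, e1, one_smul]
    · rw [M4_one, Matrix.mul_fin_two]
      have e1 : 1 / (1 - t ^ 2 * x) * (1 - t ^ 2 * x) = 1 := by field_simp
      refine M4_ext ?_ ?_ ?_ ?_
      · rw [zero_mul, zero_add, smul_mul_assoc, hMP, smul_smul, e1, one_smul]
      · simp
      · simp
      · rw [mul_zero, add_zero, smul_mul_assoc, hMP, smul_smul, e1, one_smul]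
  · refine ⟨⟨!![(3 : K) • j, 0; 0, -j], !![(1 / (3 * y)) • j, 0; 0, -((1 / y) • j)],
      ?_, ?_⟩, rfl⟩
    · rw [M4_one, Matrix.mul_fin_two]
      refine M4_ext ?_ ?_ ?_ ?_
      · rw [mul_zero, add_zero, smul_mul_assoc, mul_smul_comm, hj, smul_smul, smul_smul]
        have e1 : 3 * (1 / (3 * y)) * y = 1 := by field_simp
        rw [e1, one_smul]
      · simp
      · simp
      · rw [mul_zero, zero_add, neg_mul_neg, mul_smul_comm, hj, smul_smul]
        have e1 : 1 / y * y = 1 := by field_simp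
        rw [e1, one_smul]
    · rw [M4_one, Matrix.mul_fin_two]
      refine M4_ext ?_ ?_ ?_ ?_
      · rw [mul_zero, add_zero, smul_mul_assoc, mul_smul_comm, hj, smul_smul, smul_smul]
        have e1 : 1 / (3 * y) * 3 * y = 1 := by field_simp
        rw [e1, one_smul]
      · simp
      · simp
      · rw [mul_zero, zero_add, neg_mul_neg, smul_mul_assoc, hj, smul_smul]
        have e1 : 1 / y * y = 1 := by field_simp
        rw [e1, one_smul]

end Pool.Agent.Helper75.PX
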