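import Pool.Agent.Helper75.PX.Stmts2

/-! Row TM1: tensor product with a matrix algebra on the right. -/

set_option autoImplicit false

universe u

open TensorProduct

namespace Pool.Agent.Helper75.PX

theorem st_TM1 : ST_TM1.{u} := by
  intro K A B _ _ _ _ _ m
  exact ⟨((Algebra.TensorProduct.congr (AlgEquiv.refl : A ≃ₐ[K] A)
    (matrixEquivTensor (Fin m) K B)).trans
      (Algebra.TensorProduct.assoc K K K A B (Matrix (Fin m) (Fin m) K)).symm).trans
        (matrixEquivTensor (Fin m) K (A ⊗[K] B)).symm⟩

end Pool.Agent.Helper75.PX
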